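import Pool.Agent.H29.HMF.Stmts

/-! Row MN2 of the board `hmf`. -/

set_option autoImplicit false

open Matrix MeasureTheory

namespace Pool.HMF

lemma mn2_key (M : S2) (x y : ℝ) (k : S2) (hk : k.1 * k.1ᵀ = 1)
    (h : M.1 * dg x = dg y * k.1) :
    M.1 0 0 * M.1 1 0 * Real.exp x ^ 4 + M.1 0 1 * M.1 1 1 = 0 := by
  have e1 : Real.exp x * Real.exp (-x) = 1 := by rw [← Real.exp_add]; simp
  have e2 : Real.exp y * Real.exp (-y) = 1 := by rw [← Real.exp_add]; simp
  have h00 := congrFun (congrFun h 0) 0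
  have h01 := congrFun (congrFun h 0) 1
  have h10 := congrFun (congrFun h 1) 0
  have h11 := congrFun (congrFun h 1) 1
  have hk01 := congrFun (congrFun hk 0) 1
  simp only [dg, Matrix.mul_apply, Fin.sum_univ_two, Matrix.diagonal_apply, Matrix.transpose_apply,
    Matrix.one_apply, Fin.isValue, if_true, if_false, Matrix.cons_val_zero, Matrix.cons_val_one,
    mul_zero, zero_mul, add_zero,
    zero_add, one_ne_zero, zero_ne_one] at h00 h01 h10 h11 hk01
  have key : M.1 0 0 * M.1 1 0 * Real.exp x ^ 2 + M.1 0 1 * M.1 1 1 * Real.exp (-x) ^ 2 = 0 := by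
    calc M.1 0 0 * M.1 1 0 * Real.exp x ^ 2 + M.1 0 1 * M.1 1 1 * Real.exp (-x) ^ 2
        = (M.1 0 0 * Real.exp x) * (M.1 1 0 * Real.exp x) +
          (M.1 0 1 * Real.exp (-x)) * (M.1 1 1 * Real.exp (-x)) := by ring
      _ = (Real.exp y * k.1 0 0) * (Real.exp (-y) * k.1 1 0) +
          (Real.exp y * k.1 0 1) * (Real.exp (-y) * k.1 1 1) := by rw [h00, h01, h10, h11]
      _ = (Real.exp y * Real.exp (-y)) * (k.1 0 0 * k.1 1 0 + k.1 0 1 * k.1 1 1) := by ring
      _ = 0 := by rw [hk01, mul_zero]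
  calc M.1 0 0 * M.1 1 0 * Real.exp x ^ 4 + M.1 0 1 * M.1 1 1
      = (M.1 0 0 * M.1 1 0 * Real.exp x ^ 2) * Real.exp x ^ 2 +
        M.1 0 1 * M.1 1 1 * (Real.exp x * Real.exp (-x)) ^ 2 := by rw [e1]; ring
    _ = (M.1 0 0 * M.1 1 0 * Real.exp x ^ 2 + M.1 0 1 * M.1 1 1 * Real.exp (-x) ^ 2) *
        Real.exp x ^ 2 := by ring
    _ = 0 := by rw [key, zero_mul]

/-- Row MN2. -/
theorem mn2_thm : MN2S := by
  intro M h1 h2 x x' y y' k k' hk hk' h h'
  have a1 := mn2_key M x y k hk h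
  have a2 := mn2_key M x' y' k' hk' h'
  have hdet : M.1 0 0 * M.1 1 1 - M.1 0 1 * M.1 1 0 = 1 := by
    rw [← Matrix.det_fin_two]
    exact M.2
  by_cases h0 : M.1 0 0 * M.1 1 0 = 0
  · exfalso
    rw [h0, zero_mul, zero_add] at a1
    rcases mul_eq_zero.1 h0 with h3 | h3
    · rcases mul_eq_zero.1 a1 with h4 | h4
      · rw [h3, h4] at hdet
        norm_num at hdet
      · exact h2 (Or.inr ⟨rfl, h3, h4⟩)
    · rcases mul_eq_zero.1 a1 with h4 | h4
      · exact h1 (Or.inl ⟨rfl, h4, h3⟩)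
      · rw [h3, h4] at hdet
        norm_num at hdet
  · have h3 : M.1 0 0 * M.1 1 0 * Real.exp x ^ 4 = M.1 0 0 * M.1 1 0 * Real.exp x' ^ 4 := by
      linarith
    have h4 : Real.exp x ^ 4 = Real.exp x' ^ 4 := mul_left_cancel₀ h0 h3
    have h5 : Real.exp x = Real.exp x' :=
      (pow_left_inj₀ (Real.exp_pos _).le (Real.exp_pos _).le (by norm_num)).1 h4
    exact Real.exp_injective h5

end Pool.HMF
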